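import Pool.Agent.Work.MP_71a505_up.Defs

/-!
Block EB of the upgrade of MP_71a505_nt.
-/

namespace Pool.Agent.Work.MP_71a505_up

variable {a b c r s t W e h α β γ δ x d g y z xb yb xc : ℝ}

namespace EB

theorem identity (R : RD a b c r s t W e h α β γ δ) (X : RX a b c r s t x d) :
    α * β * γ / δ + 12 * α ^ 2 * x - 3 * (α * β) - a
      = α * β * PhiE e h (γ / δ) + 6 * (α ^ 2 * (2 * r * x - s) / r) + x / t := by
  have hδ := R.hδ.ne'
  have hα := R.hα.ne'
  have hβ := R.hβ.ne'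
  have hγ := R.hγ.ne'
  have hW := R.hW.ne'
  have he := R.he.ne'
  have hr0 := R.hr.ne'
  have hs0 := R.hs.ne'
  have ht0 := R.ht.ne'
  have h3 : h + 3 ≠ 0 := by have := R.hh; positivity
  have hL3 : (1 - e - h * e) ≠ 0 := by have := R.hL3; intro h0; linarith
  have i1 : α * β * ((h + 1 - e) / (h + 3)) = α ^ 2 * s / r := by
    rw [eq_div_iff hr0]
    apply mul_right_cancel₀ hδ
    have e1 : α * β * ((h + 1 - e) / (h + 3)) * r * δ
        = α * β * ((h + 1 - e) / (h + 3)) * (r * δ) := by ring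
    have e2 : α ^ 2 * s * δ = α ^ 2 * (s * δ) := by ring
    rw [e1, e2, R.rα, R.sβ]
    field_simp
  have hqD : qD e h = δ ^ 2 / W := by
    rw [eq_div_iff hW, R.D2, qD]
  have i3 : α * β * ((h + 3) * (h + 1 - e) * e ^ 2 / (qD e h * ((1 - e - h * e) * (γ / δ))))
      = r * s / t := by
    rw [eq_div_iff ht0, hqD]
    apply mul_right_cancel₀ (pow_ne_zero 2 hδ)
    have e1 : r * s * δ ^ 2 = (r * δ) * (s * δ) := by ring
    rw [e1, R.rα, R.sβ]
    have e2 : ∀ u : ℝ, u * t * δ ^ 2 = u * (t * δ) * δ := fun u => by ring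
    rw [e2, R.tγ]
    field_simp
  have ia : a = r * s / t - x / t := by
    rw [← sub_div, eq_div_iff ht0, X.xe]; ring
  have i4 : α ^ 2 * (2 * r * x - s) / r = 2 * (α ^ 2 * x) - α ^ 2 * s / r := by
    field_simp
  rw [i4]
  have i5 : α * β * PhiE e h (γ / δ) = α * β * γ / δ - 3 * (α * β)
      + 6 * (α * β * ((h + 1 - e) / (h + 3)))
      - α * β * ((h + 3) * (h + 1 - e) * e ^ 2 / (qD e h * ((1 - e - h * e) * (γ / δ)))) := by
    unfold PhiE
    ring
  rw [i5, i1, i3]
  linear_combination -ia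

end EB

/-- BLOCK EB : `E' = K + 12 A x - 3 αβ - a ≥ 1`. -/
theorem E_bound
    (hz1 : e ^ 3 * b < a ∧ 3 * a ≤ 8 * (e ^ 3 * b) ∧ W ^ 2 ≤ b * c ∧ b * c ≤ 4 * W ^ 2 ∧
      h * c ≤ b ∧ 50 ≤ b ∧ W < t ∧ 47 * c ≤ 48 * (c - a))
    (R : RD a b c r s t W e h α β γ δ) (I : II a b c r s t W e α β γ δ)
    (X : RX a b c r s t x d)
    (hΦ : ∀ q : ℝ, 0 < q → q ^ 2 * qD e h = qC e h → e ≤ 1 / 100 → h ≤ 1 / 100 →
      0 < PhiE e h q ∧ PhiE e h q ≤ 2 * h + 3 * e ^ 3) :
    c ^ 3 ≤ 1000000 * (a * b ^ 5) ∨ b ≤ 1000000 * a ^ 4 := by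
  by_contra hcon
  push Not at hcon
  obtain ⟨hc3, hb4⟩ := hcon
  obtain ⟨z1, -, z3, -, z5, z6, -, -⟩ := hz1
  have ha := R.ha
  have hb0 : 0 < b := by linarith
  have hc0 : 0 < c := by nlinarith [R.hc]
  have he := R.he
  have hh := R.hh
  have hW := R.hW
  have hr := R.hr
  have hs := R.hs
  have ht := R.ht
  have hα := R.hα
  have hβ := R.hβ
  have hγ := R.hγ
  have hδ := R.hδ
  have hx := X.x0
  have ha0 : 0 < a := by linarith
  -- `e ≤ 1 / 100`
  have ha4 : a ≤ a ^ 4 := by
    calc a = a ^ 1 := (pow_one a).symm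
      _ ≤ a ^ 4 := pow_le_pow_right₀ ha (by norm_num)
  have he3 : e ^ 3 < 1 / 1000000 := by
    by_contra hcon
    push Not at hcon
    have h1 : 1 / 1000000 * b ≤ e ^ 3 * b := mul_le_mul_of_nonneg_right hcon hb0.le
    linarith
  have he100 : e ≤ 1 / 100 := by
    by_contra hcon
    push Not at hcon
    have : (1 / 100 : ℝ) ^ 3 < e ^ 3 := pow_lt_pow_left₀ hcon (by norm_num) (by norm_num)
    norm_num at this
    linarith
  -- `100 b ≤ c`
  have hcb : 100 * b ≤ c := by
    by_contra hcon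
    push Not at hcon
    have h1 : c ^ 3 < (100 * b) ^ 3 := pow_lt_pow_left₀ hcon hc0.le (by norm_num)
    have h2 : b ^ 3 ≤ b ^ 5 := pow_le_pow_right₀ (by linarith) (by norm_num)
    have h3 : b ^ 5 ≤ a * b ^ 5 := le_mul_of_one_le_left (by positivity) ha
    have h4 : (100 * b) ^ 3 = 1000000 * b ^ 3 := by ring
    linarith
  have hh100 : h ≤ 1 / 100 := by
    by_contra hcon
    push Not at hcon
    have h1 : 1 / 100 * c < h * c := mul_lt_mul_of_pos_right hcon hc0
    linarith
  have hq2 : (γ / δ) ^ 2 * qD e h = qC e h := by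
    have h1 : qD e h * W = δ ^ 2 := by rw [R.D2, qD]
    have h2 : qC e h * W = γ ^ 2 := by rw [R.C2, qC]
    apply mul_right_cancel₀ hW.ne'
    rw [mul_assoc, h1, h2, div_pow, div_mul_cancel₀]
    positivity
  obtain ⟨Φ0, Φ1⟩ := hΦ (γ / δ) (by positivity) hq2 he100 hh100
  -- integrality
  have hid := EB.identity R X
  set E := α * β * γ / δ + 12 * α ^ 2 * x - 3 * (α * β) - a with hE
  have hEI : IsI E := by
    have h12 : IsI (12 * α ^ 2 * x) := by
      have := ((IsI.int 12).mul I.iA).mul X.ix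
      exact_mod_cast this
    have h3 : IsI (3 * (α * β)) := by
      have := (IsI.int 3).mul I.iAB
      exact_mod_cast this
    exact ((I.iK.add h12).sub h3).sub I.ia
  -- the second term
  have hxd : x ^ 2 ≤ c / (4 * b) + 1 := by
    rw [← X.x2]
    have : a * d ≤ c / (4 * b) := by
      rw [le_div_iff₀ (by positivity)]
      nlinarith [X.dc]
    linarith
  have hsy := X.sy
  have hr2 := R.r2
  have hs2 := R.s2
  have ht2 := R.t2
  have hab : a ≤ b := by nlinarith [R.hb]
  have hy0 : 0 < 2 * r * x - s := by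
    have h1 : 0 < s * (2 * r * x - s) := by
      rw [hsy]
      have h2 : a ^ 2 ≤ a * b := by rw [sq]; exact mul_le_mul_of_nonneg_left hab ha0.le
      have h3 : 0 < x ^ 2 := by positivity
      linarith
    exact (mul_pos_iff_of_pos_left hs).1 h1
  have hEpos : 0 < E := by
    rw [hid]
    positivity
  have hE1 := hEI.one_le hEpos
  -- `αβ ≤ (9/4) e b`
  have hhW : h * W ^ 2 ≤ b ^ 2 := by
    calc h * W ^ 2 ≤ h * (b * c) := mul_le_mul_of_nonneg_left z3 hh.le
      _ = (h * c) * b := by ring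
      _ ≤ b * b := mul_le_mul_of_nonneg_right z5 hb0.le
      _ = b ^ 2 := by ring
  have hP : α * β ≤ 9 / 4 * (e * b) := by
    have h1 : (α * β) ^ 2 = (h * W ^ 2) * e ^ 2 * (h + 2 * e + 4) := by
      rw [mul_pow, R.A2, R.B2]; ring
    have h2 : (α * β) ^ 2 ≤ (9 / 4 * (e * b)) ^ 2 := by
      rw [h1]
      calc (h * W ^ 2) * e ^ 2 * (h + 2 * e + 4) ≤ b ^ 2 * e ^ 2 * 5 := by
            apply mul_le_mul
            · exact mul_le_mul_of_nonneg_right hhW (by positivity)
            · linarith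
            · positivity
            · positivity
        _ ≤ (9 / 4 * (e * b)) ^ 2 := by
            have h5 : (9 / 4 * (e * b)) ^ 2 = 81 / 16 * (b ^ 2 * e ^ 2) := by ring
            have h6 : 0 ≤ b ^ 2 * e ^ 2 := by positivity
            linarith
    exact le_of_sq_le_sq h2 (by positivity)
  -- `e b² / c ≤ 1/100`
  have hm : e * b ^ 2 ≤ c / 100 := by
    by_contra hcon
    push Not at hcon
    have h1 : (c / 100) ^ 3 < (e * b ^ 2) ^ 3 := pow_lt_pow_left₀ hcon (by positivity) (by norm_num)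
    have h2 : (e * b ^ 2) ^ 3 = (e ^ 3 * b) * b ^ 5 := by ring
    have h3 : (e ^ 3 * b) * b ^ 5 ≤ a * b ^ 5 := mul_le_mul_of_nonneg_right z1.le (by positivity)
    have h4 : (c / 100) ^ 3 = c ^ 3 / 1000000 := by ring
    linarith
  have hae : a * e ≤ 1 / 100 := by
    by_contra hcon
    push Not at hcon
    have h1 : (1 / 100 : ℝ) ^ 3 < (a * e) ^ 3 := pow_lt_pow_left₀ hcon (by norm_num) (by norm_num)
    have h2 : (a * e) ^ 3 * b = a ^ 3 * (e ^ 3 * b) := by ring
    have h3 : a ^ 3 * (e ^ 3 * b) ≤ a ^ 3 * a := mul_le_mul_of_nonneg_left z1.le (by positivity)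
    have h4 : (1 / 100 : ℝ) ^ 3 * b < (a * e) ^ 3 * b := mul_lt_mul_of_pos_right h1 hb0
    have h5 : a ^ 3 * a = a ^ 4 := by ring
    have h6 : (1 / 100 : ℝ) ^ 3 * b = b / 1000000 := by ring
    linarith
  have hhbe : h * (e * b) ≤ 1 / 100 := by
    have h1 : h * (e * b) * c ≤ c / 100 := by
      calc h * (e * b) * c = (h * c) * (e * b) := by ring
        _ ≤ b * (e * b) := mul_le_mul_of_nonneg_right z5 (by positivity)
        _ = e * b ^ 2 := by ring
        _ ≤ c / 100 := hm
    by_contra hcon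
    push Not at hcon
    have h2 : 1 / 100 * c < h * (e * b) * c := mul_lt_mul_of_pos_right hcon hc0
    linarith
  have T1 : α * β * PhiE e h (γ / δ) ≤ 45 / 1000 + 675 / 10000 := by
    have h1 : α * β * PhiE e h (γ / δ) ≤ 9 / 4 * (e * b) * (2 * h + 3 * e ^ 3) :=
      mul_le_mul hP Φ1 Φ0.le (by positivity)
    have h2 : 9 / 4 * (e * b) * (2 * h + 3 * e ^ 3) = 9 / 2 * (h * (e * b))
        + 27 / 4 * (e * (e ^ 3 * b)) := by ring
    have h3 : e * (e ^ 3 * b) ≤ e * a := mul_le_mul_of_nonneg_left z1.le he.le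
    have h4 : e * a = a * e := mul_comm _ _
    linarith
  have T2 : 6 * (α ^ 2 * (2 * r * x - s) / r) ≤ 8 / 100 := by
    have hrs : a * W ≤ r * s := by
      have h1 : (a * W) ^ 2 ≤ (r * s) ^ 2 := by
        rw [mul_pow, mul_pow, ← hr2, ← hs2]
        have h5 : a ^ 2 * W ^ 2 ≤ a ^ 2 * (b * c) := mul_le_mul_of_nonneg_left z3 (by positivity)
        have h6 : (a * b + 1) * (a * c + 1) = a ^ 2 * (b * c) + a * b + a * c + 1 := by ring
        have h7 := mul_pos ha0 hb0
        have h8 := mul_pos ha0 hc0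
        linarith
      exact le_of_sq_le_sq h1 (by positivity)
    have h1 : α ^ 2 * (2 * r * x - s) / r = α ^ 2 * (s * (2 * r * x - s)) / (r * s) := by
      field_simp
    have h2 : s * (2 * r * x - s) ≤ r ^ 2 + x ^ 2 := by
      rw [hsy]; linarith [sq_nonneg a]
    have h3 : α ^ 2 * (s * (2 * r * x - s)) / (r * s) ≤ (h * e) * (r ^ 2 + x ^ 2) / a := by
      rw [div_le_div_iff₀ (by positivity) ha0, R.A2]
      calc h * e * W * (s * (2 * r * x - s)) * a ≤ h * e * W * (r ^ 2 + x ^ 2) * a := by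
            apply mul_le_mul_of_nonneg_right _ ha0.le
            exact mul_le_mul_of_nonneg_left h2 (by positivity)
        _ = h * e * (r ^ 2 + x ^ 2) * (a * W) := by ring
        _ ≤ h * e * (r ^ 2 + x ^ 2) * (r * s) := mul_le_mul_of_nonneg_left hrs (by positivity)
    have h4 : h * x ^ 2 ≤ 26 / 100 := by
      calc h * x ^ 2 ≤ h * (c / (4 * b) + 1) := mul_le_mul_of_nonneg_left hxd hh.le
        _ = (h * c) / (4 * b) + h := by ring
        _ ≤ b / (4 * b) + h := by
            gcongr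
        _ = 1 / 4 + h := by field_simp
        _ ≤ 26 / 100 := by linarith
    have h5 : (h * e) * (r ^ 2 + x ^ 2) / a ≤ h * (e * b) * (51 / 50) + e * (26 / 100) := by
      rw [div_le_iff₀ ha0, ← hr2]
      have h6 : h * e * (a * b + 1) ≤ h * (e * b) * (51 / 50) * a := by
        have h8 : b ≤ a * b := le_mul_of_one_le_left hb0.le ha
        have : a * b + 1 ≤ (51 / 50) * (a * b) := by linarith
        calc h * e * (a * b + 1) ≤ h * e * ((51 / 50) * (a * b)) :=
              mul_le_mul_of_nonneg_left this (by positivity)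
          _ = _ := by ring
      have h7 : h * e * x ^ 2 ≤ e * (26 / 100) * a := by
        calc h * e * x ^ 2 = e * (h * x ^ 2) := by ring
          _ ≤ e * (26 / 100) := mul_le_mul_of_nonneg_left h4 he.le
          _ ≤ e * (26 / 100) * a := le_mul_of_one_le_right (by positivity) ha
      linarith
    rw [h1]
    linarith
  have T3 : x / t ≤ 1 / 50 := by
    rw [div_le_div_iff₀ ht (by norm_num)]
    have h1 : (x * 50) ^ 2 ≤ (1 * t) ^ 2 := by
      rw [mul_pow, one_mul, ← ht2]
      have h2 : c / (4 * b) ≤ c / 200 := by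
        apply div_le_div_of_nonneg_left hc0.le (by norm_num)
        linarith
      have h3 : 50 * c ≤ b * c := mul_le_mul_of_nonneg_right z6 hc0.le
      linarith
    exact le_of_sq_le_sq h1 (by positivity)
  linarith

end Pool.Agent.Work.MP_71a505_up
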